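import Pool.Agent.P.MP_119182_lc.WQ.End
import Pool.Agent.P.MP_119182_lc.LQ.All

set_option autoImplicit false

namespace Pool.Agent.Results.MP_119182_lc.UnifiedEps

open Pool.Agent.P.MP_119182_lc

theorem result :
    ∀ ε : ℝ, 0 < ε → ∃ C : ℝ, ∀ (n u m : ℕ) (T : BT) (a y : ℕ → ℕ) (Q : ℕ → Finset ℕ),
      T.keys = List.range' 1 n → (∀ i < m, 1 ≤ a i ∧ a i ≤ n) →
      (∀ i, i + 1 < m → Q (i + 1) ⊆ insert (a i) (Q i)) →
      (∀ i < m, wset a i (y i) ≤ 2 ^ u ∨ y i ∈ Q i) →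
      (cost T ((List.range m).map a) : ℝ) ≤ C * (((u + 1) * (n + m) +
        n * Nat.log 2 ((Q 0).card + 1) +
        ∑ i ∈ Finset.range m, Nat.log 2 ((Q i).card + 1) : ℕ) +
        ∑ i ∈ Finset.range m,
          (Nat.log 2 (Nat.dist (a i) (y i) / 2 ^ u + 1) : ℝ) ^ (1 + ε)) :=
  WQ.eps LQ.a_EPS

end Pool.Agent.Results.MP_119182_lc.UnifiedEps
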