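import Pool.Agent.P.MP_119182_lc.NU.All

set_option autoImplicit false

namespace Pool.Agent.Results.MP_119182_lc.UnifiedSum

open Pool.Agent.P.MP_119182_lc

theorem result :
    ∃ C : ℕ, ∀ (J n m : ℕ) (T : BT) (a : ℕ → ℕ), n ≤ (fun k : ℕ => 2 ^ k)^[J] 1 →
      T.keys = List.range' 1 n → (∀ i < m, 1 ≤ a i ∧ a i ≤ n) →
      (n : ℝ) * max 1 (Real.logb 2 n) ≤ m →
      (cost T ((List.range m).map a) : ℝ) ≤ 2 ^ C ^ (J + 1) * unified n m a :=
  NU.q_FIN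

end Pool.Agent.Results.MP_119182_lc.UnifiedSum
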