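import Pool.Agent.P.MP_119182_lc.LW.WdfAll

set_option autoImplicit false

namespace Pool.Agent.Results.MP_119182_lc.WeightedFinger

open Pool.Agent.P.MP_119182_lc

theorem result :
    ∃ C : ℕ, ∀ (n m : ℕ) (T : BT) (w a : ℕ → ℕ), T.keys = List.range' 1 n →
      (∀ x, 1 ≤ x → x ≤ n → 1 ≤ w x) → (∀ i < m, 1 ≤ a i ∧ a i ≤ n) →
      cost T ((List.range m).map a) ≤
        C * (n * (Nat.log 2 (Nat.log 2 (∑ x ∈ Finset.Icc 1 n, w x)) + 1) ^ 3 +
          Nat.log 2 (∑ x ∈ Finset.Icc 1 n, w x) + m + ∑ i ∈ Finset.range (m - 1),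
            Nat.log 2 ((∑ x ∈ Finset.Icc (min (a i) (a (i + 1))) (max (a i) (a (i + 1))), w x) /
              w (a (i + 1)))) :=
  LW.a_WDF

end Pool.Agent.Results.MP_119182_lc.WeightedFinger
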